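import Pool.Agent.TH931.LP.Defs

/-!
# Statements of the tasks (helper931), first part: certificates

Task `X` proves `theorem X : S_X`.
-/

set_option autoImplicit false

open MeasureTheory Set
open scoped ENNReal Matrix

noncomputable section

namespace Pool.Agent.TH931.LP

/-! ### foundations -/

/-- A1: Fubini for `Fin.append` -/
def S_app : Prop := ∀ (a b : ℕ) (f : (Fin (a + b) → ℝ) → ℝ≥0∞), Measurable f →
  ∫⁻ x, f x = ∫⁻ x1 : Fin a → ℝ, ∫⁻ x2 : Fin b → ℝ, f (Fin.append x1 x2)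

/-- A2: radial integration -/
def S_rad : Prop := ∀ (n : ℕ) (h : (Fin n → ℝ) → ℝ), 0 < n → Measurable h →
  (∀ y, 0 ≤ h y) → (∀ t : ℝ, 0 < t → ∀ y, h (t • y) = t * h y) → volume {y | h y ≤ 1} ≠ ∞ →
  ∀ f : (Fin n → ℝ) → ℝ≥0∞, Measurable f → (∀ t : ℝ, 0 < t → ∀ y, f (t • y) = f y) →
  ∀ Φ : ℝ → ℝ≥0∞, Measurable Φ →
    ∫⁻ y, Φ (h y) * f y =
      (∫⁻ r in Ioi (0 : ℝ), ENNReal.ofReal (n * r ^ (n - 1)) * Φ r) * ∫⁻ y in {y | h y ≤ 1}, f y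

/-- A3: beta integrals, `k ≥ 1` -/
def S_beta : Prop := ∀ k j : ℕ, 1 ≤ k →
  (∫⁻ r in Ioc (0 : ℝ) 1, ENNReal.ofReal (k * r ^ (k - 1) * (1 - r) ^ j) =
    ENNReal.ofReal (k.factorial * j.factorial / (k + j).factorial)) ∧
  (∫⁻ r in Ioc (0 : ℝ) 1, ENNReal.ofReal (k * r ^ (k - 1) * (1 - r) ^ j * -Real.log r) =
    ENNReal.ofReal (k.factorial * j.factorial / (k + j).factorial * (HH (k + j) - HH (k - 1)))) ∧
  (∫⁻ r in Ioc (0 : ℝ) 1, ENNReal.ofReal (k * r ^ (k - 1) * (1 - r) ^ j * -Real.log (1 - r)) =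
    ENNReal.ofReal (k.factorial * j.factorial / (k + j).factorial * (HH (k + j) - HH j)))

/-- A4: products of good frames are good (with the volumes) -/
def S_gprod : Prop := ∀ (n m : ℕ) (U V U' V' : Type) [Fintype U] [Fintype V] [Fintype U']
  [Fintype V'] (F : Fr n U V) (G : Fr m U' V'), Good F → Good G → Good (F.prod G) ∧
    volume (F.prod G).body = volume F.body * volume G.body ∧
    volume (F.prod G).pol = ENNReal.ofReal (n.factorial * m.factorial / (n + m).factorial) *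
      (volume F.pol * volume G.pol)

/-- A5: the cube -/
def S_gcube : Prop := ∀ c : ℕ, Good (cubeF c) ∧ (cubeF c).body = Icc (-1) 1 ∧
  Ker (cubeF c) (alC c) (muC c) ∧ Ker (cubeF c).dual (fun b a => alC c a b) (nuC c)

/-! ### kernels -/

/-- K1: product of kernels -/
def S_kprod : Prop := ∀ (n m : ℕ) (U V U' V' : Type) [Fintype U] [Fintype V] [Fintype U']
  [Fintype V'] (F : Fr n U V) (G : Fr m U' V') (α : U → V → ℝ) (α' : U' → V' → ℝ)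
  (mu : (Fin n → ℝ) → U → ℝ) (mu' : (Fin m → ℝ) → U' → ℝ), Good F → Good G →
    Ker F α mu → Ker G α' mu' → Ker (F.prod G) (alP n m α α') (muP mu mu')

/-- K2: sum of kernels -/
def S_ksum : Prop := ∀ (n m : ℕ) (U V U' V' : Type) [Fintype U] [Fintype V] [Fintype U']
  [Fintype V'] (F : Fr n U V) (G : Fr m U' V') (α : U → V → ℝ) (α' : U' → V' → ℝ)
  (mu : (Fin n → ℝ) → U → ℝ) (mu' : (Fin m → ℝ) → U' → ℝ)
  (lam : (Fin n → ℝ) → U → ℝ) (lam' : (Fin m → ℝ) → U' → ℝ), Good F → Good G →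
    Ker F α mu → Ker G α' mu' → BK F α lam → BK G α' lam' →
      Ker (F.sum G) (alS n m α α') (muS F G mu mu' lam lam')

/-- K3: the simple kernel from the body -/
def S_lam0 : Prop := ∀ (n : ℕ) (U V : Type) [Fintype U] [Fintype V] (F : Fr n U V)
  (α : U → V → ℝ) (mu : (Fin n → ℝ) → U → ℝ), Good F → Ker F α mu → BK F α (lam0 F α mu)

/-- K4: kernels from the body for products and sums -/
def S_bprod : Prop := ∀ (n m : ℕ) (U V U' V' : Type) [Fintype U] [Fintype V] [Fintype U']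
  [Fintype V'] (F : Fr n U V) (G : Fr m U' V') (α : U → V → ℝ) (α' : U' → V' → ℝ)
  (mu : (Fin n → ℝ) → U → ℝ) (mu' : (Fin m → ℝ) → U' → ℝ)
  (lam : (Fin n → ℝ) → U → ℝ) (lam' : (Fin m → ℝ) → U' → ℝ), Good F → Good G →
    Ker F α mu → Ker G α' mu' → BK F α lam → BK G α' lam' →
      BK (F.prod G) (alP n m α α') (lamP F G mu mu' lam lam')

def S_bsum : Prop := ∀ (n m : ℕ) (U V U' V' : Type) [Fintype U] [Fintype V] [Fintype U']
  [Fintype V'] (F : Fr n U V) (G : Fr m U' V') (α : U → V → ℝ) (α' : U' → V' → ℝ)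
  (mu : (Fin n → ℝ) → U → ℝ) (mu' : (Fin m → ℝ) → U' → ℝ)
  (lam : (Fin n → ℝ) → U → ℝ) (lam' : (Fin m → ℝ) → U' → ℝ), Good F → Good G →
    Ker F α mu → Ker G α' mu' → BK F α lam → BK G α' lam' →
      BK (F.sum G) (alS n m α α') (lamS lam lam')

/-! ### certificates -/

/-- C1: products, cones -/
def S_qprod : Prop := ∀ (n m : ℕ) (U V U' V' : Type) [Fintype U] [Fintype V] [Fintype U']
  [Fintype V'] (F : Fr n U V) (G : Fr m U' V') (α : U → V → ℝ) (α' : U' → V' → ℝ)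
  (mu : (Fin n → ℝ) → U → ℝ) (mu' : (Fin m → ℝ) → U' → ℝ) (LQ : (Fin n → ℝ) → ℝ)
  (LQ' : (Fin m → ℝ) → ℝ) (Y : Set (Fin n → ℝ)) (Y' : Set (Fin m → ℝ)) (qa qa' : ℝ),
    Good F → Good G → Ker F α mu → Ker G α' mu' → QC F mu LQ Y qa → QC G mu' LQ' Y' qa' →
      ∃ W, QC (F.prod G) (muP mu mu') (LQP LQ LQ') W
        (qa + qa' - 2 + n * (HH (n + m) - HH (n - 1)) + m * (HH (n + m) - HH (m - 1)))

/-- C2: sums, cones -/
def S_qsum : Prop := ∀ (n m : ℕ) (U V U' V' : Type) [Fintype U] [Fintype V] [Fintype U']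
  [Fintype V'] (F : Fr n U V) (G : Fr m U' V') (α : U → V → ℝ) (α' : U' → V' → ℝ)
  (mu : (Fin n → ℝ) → U → ℝ) (mu' : (Fin m → ℝ) → U' → ℝ) (LQ : (Fin n → ℝ) → ℝ)
  (LQ' : (Fin m → ℝ) → ℝ) (Y : Set (Fin n → ℝ)) (Y' : Set (Fin m → ℝ)) (qa qa' : ℝ)
  (lam : (Fin n → ℝ) → U → ℝ) (lam' : (Fin m → ℝ) → U' → ℝ) (LZ : (Fin n → ℝ) → ℝ)
  (LZ' : (Fin m → ℝ) → ℝ) (Z : Set (Fin n → ℝ)) (Z' : Set (Fin m → ℝ)) (g g' : ℝ),
    Good F → Good G → Ker F α mu → Ker G α' mu' → QC F mu LQ Y qa → QC G mu' LQ' Y' qa' →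
    BK F α lam → BK G α' lam' → ZC F lam LZ Z g → ZC G lam' LZ' Z' g' →
      ∃ W, QC (F.sum G) (muS F G mu mu' lam lam') (LQS F G LQ LQ' LZ LZ') W
        ((n : ℝ) / (n + m) * (qa + g') + (m : ℝ) / (n + m) * (qa' + g))

/-- C3: the cube, cones -/
def S_qcube : Prop := ∀ c : ℕ, QC (cubeF c) (muC c) (fun y => -∑ i, Real.log |y i|)
  {y | ∀ i, y i ≠ 0} ((c + 1) * HH (c + 1))

/-- C4: sums, norms -/
def S_zsum : Prop := ∀ (n m : ℕ) (U V U' V' : Type) [Fintype U] [Fintype V] [Fintype U']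
  [Fintype V'] (F : Fr n U V) (G : Fr m U' V') (α : U → V → ℝ) (α' : U' → V' → ℝ)
  (lam : (Fin n → ℝ) → U → ℝ) (lam' : (Fin m → ℝ) → U' → ℝ) (LZ : (Fin n → ℝ) → ℝ)
  (LZ' : (Fin m → ℝ) → ℝ) (Z : Set (Fin n → ℝ)) (Z' : Set (Fin m → ℝ)) (g g' : ℝ),
    Good F → Good G → BK F α lam → BK G α' lam' → ZC F lam LZ Z g → ZC G lam' LZ' Z' g' →
      ∃ W, ZC (F.sum G) (lamS lam lam') (LZS LZ LZ') W (g + g')

/-- C5: the certificate inequality with the first factor as base, the second one by its cones -/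
def S_zbase : Prop := ∀ (n m : ℕ) (U V U' V' : Type) [Fintype U] [Fintype V] [Fintype U']
  [Fintype V'] (F : Fr n U V) (G : Fr m U' V') (α' : U' → V' → ℝ)
  (mu' : (Fin m → ℝ) → U' → ℝ) (LQ' : (Fin m → ℝ) → ℝ) (Y' : Set (Fin m → ℝ)) (qa' : ℝ)
  (lam : (Fin n → ℝ) → U → ℝ) (LZ : (Fin n → ℝ) → ℝ) (Z : Set (Fin n → ℝ)) (g : ℝ),
    Good F → Good G → Ker G α' mu' → QC G mu' LQ' Y' qa' → ZC F lam LZ Z g →
    ∀ b : Fin (n + m) → ℝ, F.h (p1 b) + G.h (p2 b) < 1 → p2 b ∈ Y' →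
      (1 - G.h (p2 b))⁻¹ • p1 b ∈ Z → ∀ τ : U ⊕ U' → ℝ,
      ∫⁻ z, ENNReal.ofReal (Real.exp (z ⬝ᵥ b - ⨆ a, ((F.prod G).u a ⬝ᵥ z - τ a))) ≤
        ENNReal.ofReal (Real.exp (∑ a, (1 - G.h (p2 b)) * lam ((1 - G.h (p2 b))⁻¹ • p1 b) a *
          τ (Sum.inl a) + ∑ a', mu' (p2 b) a' * τ (Sum.inr a') + LZA G LQ' LZ b))

/-- C6: products, norms -/
def S_zprod : Prop := ∀ (n m : ℕ) (U V U' V' : Type) [Fintype U] [Fintype V] [Fintype U']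
  [Fintype V'] (F : Fr n U V) (G : Fr m U' V') (α : U → V → ℝ) (α' : U' → V' → ℝ)
  (mu : (Fin n → ℝ) → U → ℝ) (mu' : (Fin m → ℝ) → U' → ℝ) (LQ : (Fin n → ℝ) → ℝ)
  (LQ' : (Fin m → ℝ) → ℝ) (Y : Set (Fin n → ℝ)) (Y' : Set (Fin m → ℝ)) (qa qa' : ℝ)
  (lam : (Fin n → ℝ) → U → ℝ) (lam' : (Fin m → ℝ) → U' → ℝ) (LZ : (Fin n → ℝ) → ℝ)
  (LZ' : (Fin m → ℝ) → ℝ) (Z : Set (Fin n → ℝ)) (Z' : Set (Fin m → ℝ)) (g g' : ℝ),
    Good F → Good G → Ker F α mu → Ker G α' mu' → QC F mu LQ Y qa → QC G mu' LQ' Y' qa' →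
    BK F α lam → BK G α' lam' → ZC F lam LZ Z g → ZC G lam' LZ' Z' g' →
      ∃ W, ZC (F.prod G) (lamP F G mu mu' lam lam') (LZP F G LQ LQ' LZ LZ') W
        ((n : ℝ) / (n + m) * (qa' - 1 + m * (HH (n + m) - HH (m - 1)) +
            (n + 1) * (HH (n + m) - HH n) + g) +
          (m : ℝ) / (n + m) * (qa - 1 + n * (HH (n + m) - HH (n - 1)) +
            (m + 1) * (HH (n + m) - HH m) + g'))

/-- C7: certificates for the norms of the cubes; `dC` is the constant of the closure -/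
def S_zcube : Prop := ∀ c : ℕ, ∃ (lam : (Fin (c + 1) → ℝ) → Fin (c + 1) × Bool → ℝ)
  (LZ : (Fin (c + 1) → ℝ) → ℝ) (Z : Set (Fin (c + 1) → ℝ)),
    BK (cubeF c) (alC c) lam ∧
      ZC (cubeF c) lam LZ Z ((c + 1) * HH (c + 1) + dC (c + 1))

/-! ### the recursion -/

/-- R1 -/
def S_rprod : Prop := ∀ (a b : ℕ) (A : Set (Fin a → ℝ)) (B : Set (Fin b → ℝ)) (Δ d Δ' d' : ℝ),
  Rep a A Δ d → Rep b B Δ' d' → Rep (a + b) {x | p1 x ∈ A ∧ p2 x ∈ B} (Δ + Δ')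
    ((a : ℝ) / (a + b) * d + (b : ℝ) / (a + b) * d' + HH (a + b) - (a : ℝ) / (a + b) * HH a -
      (b : ℝ) / (a + b) * HH b)

/-- R2 -/
def S_rsum : Prop := ∀ (a b : ℕ) (A : Set (Fin a → ℝ)) (B : Set (Fin b → ℝ)) (Δ d Δ' d' : ℝ),
  Rep a A Δ d → Rep b B Δ' d' → Rep (a + b)
    (convexHull ℝ ({x : Fin (a + b) → ℝ | p1 x ∈ A ∧ p2 x = 0} ∪
      {x : Fin (a + b) → ℝ | p1 x = 0 ∧ p2 x ∈ B}))
    (Δ + Δ' + ww (a + b) - ww a - ww b - (a : ℝ) / (a + b) * d' - (b : ℝ) / (a + b) * d)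
    ((a : ℝ) / (a + b) * d + (b : ℝ) / (a + b) * d')

/-- R3 -/
def S_rcube : Prop := ∀ c : ℕ, Rep (c + 1) (Icc (-1) 1) 0 (dC (c + 1))

end Pool.Agent.TH931.LP
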