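import Pool.Agent.TH931.LP.Stm

/-!
# Statements of the tasks (helper931), second part: the cube
-/

set_option autoImplicit false

open MeasureTheory Set
open scoped ENNReal Matrix

noncomputable section

namespace Pool.Agent.TH931.LP

/-- Z1: the segment -/
def S_z1 : Prop :=
  BK (cubeF 0) (alC 0) (fun b a => (1 + sb a.2 * b 0) / 2) ∧
  ZC (cubeF 0) (fun b a => (1 + sb a.2 * b 0) / 2) (fun b => Real.log 2 - Real.log (1 - b 0 ^ 2))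
    {b | |b 0| < 1} (2 - Real.log 2)

/-- Z2: the certificate inequality with a pair as base -/
def S_z2 : Prop := ∀ (c : ℕ) (i j : Fin (c + 1)), i ≠ j → ∀ b : Fin (c + 1) → ℝ,
  ∑ l, |b l| < 1 → (∀ l, b l ≠ 0) → ∀ τ : Fin (c + 1) × Bool → ℝ,
    ∫⁻ z, ENNReal.ofReal (Real.exp (z ⬝ᵥ b - ⨆ a, ((cubeF c).u a ⬝ᵥ z - τ a))) ≤
      ENNReal.ofReal (Real.exp (∑ a, lamPair i j b a * τ a + LZPair i j b))

/-- Z3: `lamC` is a kernel from the body -/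
def S_z3 : Prop := ∀ c : ℕ, 1 ≤ c → BK (cubeF c) (alC c) (lamC c)

/-- Z4: the law of the two smallest coordinates, `c + 1 ≥ 2` the dimension -/
def S_z4 : Prop := ∀ c : ℕ, 1 ≤ c → ∀ Φ : ℝ → ℝ → ℝ → ℝ≥0∞,
  Measurable (fun t : ℝ × ℝ × ℝ => Φ t.1 t.2.1 t.2.2) →
  (∀ t x y s : ℝ, 0 < t → Φ (t * x) (t * y) (t * s) = Φ x y s) →
  ∑ i, ∑ j, ∫⁻ b in {b | b ∈ Zc c ∧ selP i j b}, Φ |b i| |b j| (1 - ∑ l, |b l|) =
    volume (cubeF c).pol * (∫⁻ x in Ioi (0 : ℝ), ∫⁻ z in Ioi (0 : ℝ), ∫⁻ s in Ioi (0 : ℝ),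
      ENNReal.ofReal ((c + 1) * c * Real.exp (-((c + 1) * x + c * z + s))) * Φ x (x + z) s)

/-- Z5: lower bounds of the mean gain, `c + 1` the dimension -/
def S_z5 : Prop := ∀ c : ℕ, 1 ≤ c →
  ENNReal.ofReal (HH (c + 1) - dC (c + 1)) ≤
    ∫⁻ x in Ioi (0 : ℝ), ∫⁻ z in Ioi (0 : ℝ), ∫⁻ s in Ioi (0 : ℝ),
      ENNReal.ofReal ((c + 1) * c * Real.exp (-((c + 1) * x + c * z + s))) *
        ENNReal.ofReal (gain x (x + z) s)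

/-- Z5a: the basic integral -/
def S_z5a : Prop := ∀ κ : ℝ, 0 < κ →
  ∫⁻ x in Ioi (0 : ℝ), ∫⁻ s in Ioi (0 : ℝ),
    ENNReal.ofReal (κ * Real.exp (-(κ * x + s)) * Real.log (1 + s / x)) = ENNReal.ofReal (LL κ)

/-- Z5b: the exact value in dimension two -/
def S_z5b : Prop := ∫⁻ x in Ioi (0 : ℝ), ∫⁻ z in Ioi (0 : ℝ), ∫⁻ s in Ioi (0 : ℝ),
      ENNReal.ofReal (2 * Real.exp (-(2 * x + z + s))) * ENNReal.ofReal (gain x (x + z) s) =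
    ENNReal.ofReal (1 / 2 + Real.log 2)

/-- Z5c: numerical inequalities for `dC` -/
def S_z5c : Prop :=
  HH 3 - dC 3 ≤ 3 * LL 1 - LL (3 / 2) - Real.log (3 / 2) ∧
  HH 4 - dC 4 ≤ 4 * LL (3 / 2) - 2 * LL 2 - Real.log (3 / 2) ∧
  HH 5 - dC 5 ≤ 5 * LL 2 - 3 * LL (5 / 2) - Real.log 2 ∧
  HH 6 - dC 6 ≤ 6 * LL (5 / 2) - 4 * LL 3 - Real.log 2 ∧
  ∀ c : ℕ, 7 ≤ c → HH c - dC c ≤ LL (c / 2)

/-- Z6: assembly, `S_zcube` -/
def S_z6 : Prop := S_z1 → S_z2 → S_z3 → S_z4 → S_z5 → S_gcube → S_rad → S_beta → S_zcube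

end Pool.Agent.TH931.LP
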