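import Pool.Agent.TH931.LP.Stm

/-!
# Common lemmas on frames (helper931)
-/

set_option autoImplicit false

open MeasureTheory Set Filter
open scoped ENNReal Matrix Topology

noncomputable section

namespace Pool.Agent.TH931.LP

variable {n m : ℕ} {U V U' V' : Type}

/-! ### blocks -/

@[simp] lemma p1_append (x1 : Fin n → ℝ) (x2 : Fin m → ℝ) : p1 (Fin.append x1 x2) = x1 := by
  ext i; simp [p1]

@[simp] lemma p2_append (x1 : Fin n → ℝ) (x2 : Fin m → ℝ) : p2 (Fin.append x1 x2) = x2 := by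
  ext i; simp [p2]

lemma append_p (x : Fin (n + m) → ℝ) : Fin.append (p1 x) (p2 x) = x := by
  ext i
  refine Fin.addCases (fun j => ?_) (fun j => ?_) i <;> simp [p1, p2]

@[simp] lemma p1_smul (t : ℝ) (x : Fin (n + m) → ℝ) : p1 (t • x) = t • p1 x := rfl
@[simp] lemma p2_smul (t : ℝ) (x : Fin (n + m) → ℝ) : p2 (t • x) = t • p2 x := rfl
@[simp] lemma p1_add (x y : Fin (n + m) → ℝ) : p1 (x + y) = p1 x + p1 y := rfl
@[simp] lemma p2_add (x y : Fin (n + m) → ℝ) : p2 (x + y) = p2 x + p2 y := rfl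
@[simp] lemma p1_neg (x : Fin (n + m) → ℝ) : p1 (-x) = -p1 x := rfl
@[simp] lemma p2_neg (x : Fin (n + m) → ℝ) : p2 (-x) = -p2 x := rfl
@[simp] lemma p1_zero : p1 (0 : Fin (n + m) → ℝ) = 0 := rfl
@[simp] lemma p2_zero : p2 (0 : Fin (n + m) → ℝ) = 0 := rfl

lemma ext_p {x y : Fin (n + m) → ℝ} (h1 : p1 x = p1 y) (h2 : p2 x = p2 y) : x = y := by
  rw [← append_p x, ← append_p y, h1, h2]

lemma cont_p1 : Continuous (p1 : (Fin (n + m) → ℝ) → Fin n → ℝ) :=
  continuous_pi fun _ => continuous_apply _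

lemma cont_p2 : Continuous (p2 : (Fin (n + m) → ℝ) → Fin m → ℝ) :=
  continuous_pi fun _ => continuous_apply _

lemma meas_p1 : Measurable (p1 : (Fin (n + m) → ℝ) → Fin n → ℝ) := cont_p1.measurable
lemma meas_p2 : Measurable (p2 : (Fin (n + m) → ℝ) → Fin m → ℝ) := cont_p2.measurable

lemma dot_append (a : Fin n → ℝ) (b : Fin m → ℝ) (x : Fin (n + m) → ℝ) :
    Fin.append a b ⬝ᵥ x = a ⬝ᵥ p1 x + b ⬝ᵥ p2 x := by
  simp [dotProduct, Fin.sum_univ_add, p1, p2]

lemma dot_append' (a : Fin n → ℝ) (b : Fin m → ℝ) (x : Fin (n + m) → ℝ) :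
    x ⬝ᵥ Fin.append a b = p1 x ⬝ᵥ a + p2 x ⬝ᵥ b := by
  simp [dotProduct, Fin.sum_univ_add, p1, p2]

lemma dot_p (x y : Fin (n + m) → ℝ) : x ⬝ᵥ y = p1 x ⬝ᵥ p1 y + p2 x ⬝ᵥ p2 y := by
  simp [dotProduct, Fin.sum_univ_add, p1, p2]

lemma cont_append : Continuous (fun q : (Fin n → ℝ) × (Fin m → ℝ) => Fin.append q.1 q.2) := by
  refine continuous_pi fun i => ?_
  refine Fin.addCases (fun j => ?_) (fun j => ?_) i
  · simp only [Fin.append_left]
    fun_prop
  · simp only [Fin.append_right]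
    fun_prop

lemma meas_append : Measurable (fun q : (Fin n → ℝ) × (Fin m → ℝ) => Fin.append q.1 q.2) :=
  cont_append.measurable

lemma cont_dot (y : Fin n → ℝ) : Continuous fun x : Fin n → ℝ => y ⬝ᵥ x := by
  unfold dotProduct; fun_prop

lemma cont_dot' (y : Fin n → ℝ) : Continuous fun x : Fin n → ℝ => x ⬝ᵥ y := by
  unfold dotProduct; fun_prop

/-! ### half frames -/

namespace Half

variable {F : Fr n U V}

lemma zero (hF : Half F) : F.N 0 = 0 := by
  have := hF.eq 0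
  simpa using this.symm

lemma nonneg (hF : Half F) (x : Fin n → ℝ) : 0 ≤ F.N x := by
  by_cases h : x = 0
  · rw [h, hF.zero]
  · exact (hF.pos x h).le

lemma Nsmul (hF : Half F) {t : ℝ} (ht : 0 ≤ t) (x : Fin n → ℝ) : F.N (t • x) = t * F.N x := by
  apply le_antisymm
  · rw [← hF.eq (t • x), dotProduct_smul, smul_eq_mul]
    exact mul_le_mul_of_nonneg_left (hF.le _ _) ht
  · rw [← hF.eq x, ← smul_eq_mul, ← dotProduct_smul]
    exact hF.le _ _

lemma Nsmul' (hF : Half F) (t : ℝ) (x : Fin n → ℝ) : F.N (t • x) = |t| * F.N x := by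
  rcases le_total 0 t with h | h
  · rw [hF.Nsmul h, abs_of_nonneg h]
  · rw [← hF.neg, ← neg_smul, hF.Nsmul (by linarith), abs_of_nonpos h]

lemma add_le (hF : Half F) (x y : Fin n → ℝ) : F.N (x + y) ≤ F.N x + F.N y := by
  rw [← hF.eq (x + y), dotProduct_add]
  exact add_le_add (hF.le _ _) (hF.le _ _)

lemma eq_zero (hF : Half F) {x : Fin n → ℝ} (h : F.N x ≤ 0) : x = 0 := by
  by_contra hx
  exact absurd (hF.pos x hx) (not_lt.2 h)

lemma sum_le (hF : Half F) {ι : Type*} (s : Finset ι) (t : ι → ℝ) (x : ι → Fin n → ℝ)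
    (ht : ∀ i ∈ s, 0 ≤ t i) : F.N (∑ i ∈ s, t i • x i) ≤ ∑ i ∈ s, t i * F.N (x i) := by
  rw [← hF.eq (∑ i ∈ s, t i • x i), dotProduct_sum]
  refine Finset.sum_le_sum fun i hi => ?_
  rw [dotProduct_smul, smul_eq_mul]
  exact mul_le_mul_of_nonneg_left (hF.le _ _) (ht i hi)

lemma eq_sup (hF : Half F) [Finite U] (x : Fin n → ℝ) : F.N x = ⨆ a, F.u a ⬝ᵥ x := by
  have : Nonempty U := ⟨F.ft x⟩
  apply le_antisymm
  · rw [← hF.eq x]
    exact le_ciSup (f := fun a => F.u a ⬝ᵥ x) (Set.finite_range _).bddAbove (F.ft x)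
  · exact ciSup_le fun a => hF.le a x

lemma convexOn (hF : Half F) : ConvexOn ℝ univ F.N := by
  refine ⟨convex_univ, fun x _ y _ a b ha hb _ => ?_⟩
  refine (hF.add_le _ _).trans ?_
  rw [hF.Nsmul ha, hF.Nsmul hb, smul_eq_mul, smul_eq_mul]

lemma cont (hF : Half F) : Continuous F.N := by
  rw [← continuousOn_univ]
  exact hF.convexOn.continuousOn isOpen_univ

lemma measN (hF : Half F) : Measurable F.N := hF.cont.measurable

lemma body_closed (hF : Half F) : IsClosed F.body := isClosed_le hF.cont continuous_const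

lemma body_convex (hF : Half F) : Convex ℝ F.body := by
  have h := hF.convexOn.convex_le 1
  convert h using 1
  ext x
  simp [Fr.body]

/-- `N` grows linearly -/
lemma lower (hF : Half F) : ∃ c : ℝ, 0 < c ∧ ∀ x, c * ‖x‖ ≤ F.N x := by
  rcases (Metric.sphere (0 : Fin n → ℝ) 1).eq_empty_or_nonempty with h | h
  · refine ⟨1, one_pos, fun x => ?_⟩
    have : x = 0 := by
      by_contra hx
      have h2 : (‖x‖⁻¹ • x) ∈ Metric.sphere (0 : Fin n → ℝ) 1 := by
        rw [mem_sphere_zero_iff_norm, norm_smul, norm_inv, norm_norm,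
          inv_mul_cancel₀ (norm_ne_zero_iff.2 hx)]
      rw [h] at h2
      exact h2
    rw [this, hF.zero, norm_zero, mul_zero]
  · obtain ⟨x0, hx0, hmin⟩ := (isCompact_sphere (0 : Fin n → ℝ) 1).exists_isMinOn h
      hF.cont.continuousOn
    have hx0' : x0 ≠ 0 := by
      rintro rfl
      simp at hx0
    refine ⟨F.N x0, hF.pos x0 hx0', fun x => ?_⟩
    by_cases hx : x = 0
    · rw [hx, hF.zero, norm_zero, mul_zero]
    have hn : 0 < ‖x‖ := norm_pos_iff.2 hx
    have h2 : (‖x‖⁻¹ • x) ∈ Metric.sphere (0 : Fin n → ℝ) 1 := by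
      rw [mem_sphere_zero_iff_norm, norm_smul, norm_inv, norm_norm,
        inv_mul_cancel₀ hn.ne']
    have h3 := hmin h2
    simp only [mem_ofPred_eq] at h3
    rw [hF.Nsmul (inv_nonneg.2 hn.le)] at h3
    rw [inv_mul_eq_div, le_div_iff₀ hn] at h3
    exact h3

lemma body_compact (hF : Half F) : IsCompact F.body := by
  obtain ⟨c, hc, h⟩ := hF.lower
  refine Metric.isCompact_of_isClosed_isBounded hF.body_closed ?_
  refine (Metric.isBounded_closedBall (x := (0 : Fin n → ℝ)) (r := 1 / c)).subset fun x hx => ?_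
  rw [mem_closedBall_zero_iff, le_div_iff₀ hc]
  have h1 := h x
  have h2 : F.N x ≤ 1 := hx
  linarith

lemma body_meas (hF : Half F) : MeasurableSet F.body := hF.body_closed.measurableSet

lemma body_lt_top (hF : Half F) : volume F.body < ∞ := hF.body_compact.measure_lt_top

lemma body_ne_top (hF : Half F) : volume F.body ≠ ∞ := hF.body_lt_top.ne

lemma zero_mem_int (hF : Half F) : (0 : Fin n → ℝ) ∈ interior F.body := by
  have h1 : {x : Fin n → ℝ | F.N x < 1} ⊆ F.body := fun x hx => (le_of_lt hx : F.N x ≤ 1)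
  have h2 : IsOpen {x : Fin n → ℝ | F.N x < 1} := isOpen_lt hF.cont continuous_const
  exact interior_maximal h1 h2 (by rw [mem_ofPred_eq, hF.zero]; exact one_pos)

lemma body_pos (hF : Half F) : 0 < volume F.body :=
  Measure.measure_pos_of_mem_nhds _ (mem_interior_iff_mem_nhds.1 hF.zero_mem_int)

lemma body_real_pos (hF : Half F) : 0 < volume.real F.body :=
  ENNReal.toReal_pos hF.body_pos.ne' hF.body_ne_top

end Half

/-! ### good frames -/

namespace Good

variable {F : Fr n U V}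

lemma dual (hF : Good F) : Good F.dual where
  n_pos := hF.n_pos
  half := hF.dhalf
  dhalf := hF.half
  le_one := fun a b => by
    rw [dotProduct_comm]
    exact hF.le_one b a
  vol := by
    rw [mul_comm]
    exact hF.vol

lemma h_nonneg (hF : Good F) (y : Fin n → ℝ) : 0 ≤ F.h y := hF.dhalf.nonneg y

lemma h_smul (hF : Good F) {t : ℝ} (ht : 0 ≤ t) (y : Fin n → ℝ) : F.h (t • y) = t * F.h y :=
  hF.dhalf.Nsmul ht y

lemma h_cont (hF : Good F) : Continuous F.h := hF.dhalf.cont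
lemma h_meas (hF : Good F) : Measurable F.h := hF.dhalf.measN
lemma h_zero (hF : Good F) : F.h 0 = 0 := hF.dhalf.zero
lemma h_neg (hF : Good F) (y : Fin n → ℝ) : F.h (-y) = F.h y := hF.dhalf.neg y
lemma h_eq (hF : Good F) (y : Fin n → ℝ) : F.v (F.vt y) ⬝ᵥ y = F.h y := hF.dhalf.eq y
lemma le_h (hF : Good F) (b : V) (y : Fin n → ℝ) : F.v b ⬝ᵥ y ≤ F.h y := hF.dhalf.le b y
lemma pol_meas (hF : Good F) : MeasurableSet F.pol := hF.dhalf.body_meas
lemma pol_ne_top (hF : Good F) : volume F.pol ≠ ∞ := hF.dhalf.body_ne_top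
lemma pol_pos (hF : Good F) : 0 < volume F.pol := hF.dhalf.body_pos
lemma pol_real_pos (hF : Good F) : 0 < volume.real F.pol := hF.dhalf.body_real_pos
lemma vt_meas (hF : Good F) (b : V) : MeasurableSet {y | F.vt y = b} := hF.dhalf.meas b
lemma vt_smul (hF : Good F) {t : ℝ} (ht : 0 < t) (y : Fin n → ℝ) : F.vt (t • y) = F.vt y :=
  hF.dhalf.smul t ht y

end Good

/-- the coefficients of a kernel sum up to `h` -/
lemma Ker.sum_eq [Fintype U] {F : Fr n U V} {α : U → V → ℝ} {mu : (Fin n → ℝ) → U → ℝ}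
    (hF : Good F) (hK : Ker F α mu) (y : Fin n → ℝ) : ∑ a, mu y a = F.h y := by
  have h1 : (∑ a, mu y a • F.u a) ⬝ᵥ F.v (F.vt y) = y ⬝ᵥ F.v (F.vt y) := by rw [hK.bary y]
  rw [dotProduct_comm y, hF.h_eq, sum_dotProduct] at h1
  rw [← h1]
  refine Finset.sum_congr rfl fun a _ => ?_
  rw [smul_dotProduct, smul_eq_mul]
  by_cases h : mu y a = 0
  · rw [h, zero_mul]
  · rw [hK.supp y a h, mul_one]

lemma Ker.le_h [Fintype U] {F : Fr n U V} {α : U → V → ℝ} {mu : (Fin n → ℝ) → U → ℝ}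
    (hF : Good F) (hK : Ker F α mu) (y : Fin n → ℝ) (a : U) : mu y a ≤ F.h y := by
  rw [← hK.sum_eq hF y]
  exact Finset.single_le_sum (fun a _ => hK.nonneg y a) (Finset.mem_univ a)

/-- scaling of integrals -/
lemma lintegral_scale (f : (Fin n → ℝ) → ℝ≥0∞) {t : ℝ} (ht : 0 < t) :
    ∫⁻ x, f (t • x) = ENNReal.ofReal ((t ^ n)⁻¹) * ∫⁻ x, f x := by
  have h1 := Measure.map_addHaar_smul (volume : Measure (Fin n → ℝ)) ht.ne'
  rw [Module.finrank_fintype_fun_eq_card, Fintype.card_fin, abs_of_pos (by positivity)] at h1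
  have h3 := lintegral_map_equiv (μ := (volume : Measure (Fin n → ℝ))) f
    (Homeomorph.smulOfNeZero t ht.ne' : (Fin n → ℝ) ≃ₜ (Fin n → ℝ)).toMeasurableEquiv
  have h4 : ((Homeomorph.smulOfNeZero t ht.ne' : (Fin n → ℝ) ≃ₜ (Fin n → ℝ)).toMeasurableEquiv :
      (Fin n → ℝ) → (Fin n → ℝ)) = fun x => t • x := rfl
  rw [h4, h1, lintegral_smul_measure, smul_eq_mul] at h3
  exact h3.symm

/-- scaling of integrals over balls -/
lemma Half.scale {F : Fr n U V} (hF : Half F) (f : (Fin n → ℝ) → ℝ≥0∞) {X : ℝ} (hX : 0 < X) :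
    ∫⁻ y in {y | F.N y ≤ X}, f (X⁻¹ • y) = ENNReal.ofReal (X ^ n) * ∫⁻ y in F.body, f y := by
  have hm : MeasurableSet {y : Fin n → ℝ | F.N y ≤ X} :=
    (isClosed_le hF.cont continuous_const).measurableSet
  rw [← lintegral_indicator hm, ← lintegral_indicator hF.body_meas]
  have h1 : ({y : Fin n → ℝ | F.N y ≤ X}.indicator fun y => f (X⁻¹ • y)) =
      fun y => F.body.indicator f (X⁻¹ • y) := by
    ext y
    have h2 : X⁻¹ • y ∈ F.body ↔ F.N y ≤ X := by
      change F.N (X⁻¹ • y) ≤ 1 ↔ _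
      rw [hF.Nsmul (inv_nonneg.2 hX.le), inv_mul_le_iff₀ hX, mul_one]
    by_cases h : F.N y ≤ X
    · rw [indicator_of_mem (show y ∈ {y : Fin n → ℝ | F.N y ≤ X} from h),
        indicator_of_mem (h2.2 h)]
    · rw [indicator_of_notMem (show y ∉ {y : Fin n → ℝ | F.N y ≤ X} from h),
        indicator_of_notMem (fun hh => h (h2.1 hh))]
  rw [h1, lintegral_scale _ (inv_pos.2 hX), inv_pow, inv_inv]

/-- scaling of integrals over dual balls -/
lemma Good.scale {F : Fr n U V} (hF : Good F) (f : (Fin n → ℝ) → ℝ≥0∞) {X : ℝ} (hX : 0 < X) :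
    ∫⁻ y in {y | F.h y ≤ X}, f (X⁻¹ • y) = ENNReal.ofReal (X ^ n) * ∫⁻ y in F.pol, f y :=
  hF.dhalf.scale f hX

end Pool.Agent.TH931.LP
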