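import Mathlib

/-!
# The symmetric `L^p`-Mahler inequality near Hanner polytopes: definitions (helper931)

A *frame* is a centrally symmetric polytope `{N ≤ 1}` with normals `u a` of its facets, vertices
`v b`, its norm `N`, the dual norm `h`, the facet `ft x` met by the ray of `x` and the vertex `vt y`
at which `y` is largest.
-/

set_option autoImplicit false

open MeasureTheory Set
open scoped ENNReal Matrix

noncomputable section

namespace Pool.Agent.TH931.LP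

/-- first block -/
def p1 {a b : ℕ} (x : Fin (a + b) → ℝ) : Fin a → ℝ := fun i => x (Fin.castAdd b i)

/-- second block -/
def p2 {a b : ℕ} (x : Fin (a + b) → ℝ) : Fin b → ℝ := fun j => x (Fin.natAdd a j)

/-- frames -/
structure Fr (n : ℕ) (U V : Type) where
  u : U → Fin n → ℝ
  v : V → Fin n → ℝ
  N : (Fin n → ℝ) → ℝ
  h : (Fin n → ℝ) → ℝ
  ft : (Fin n → ℝ) → U
  vt : (Fin n → ℝ) → V

variable {n m : ℕ} {U V U' V' : Type}

/-- the polar frame -/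
def Fr.dual (F : Fr n U V) : Fr n V U := ⟨F.v, F.u, F.h, F.N, F.vt, F.ft⟩

/-- the unit ball of `N` -/
def Fr.body (F : Fr n U V) : Set (Fin n → ℝ) := {x | F.N x ≤ 1}

/-- the unit ball of `h` -/
def Fr.pol (F : Fr n U V) : Set (Fin n → ℝ) := {y | F.h y ≤ 1}

/-- the properties of `u`, `N`, `ft` -/
structure Half (F : Fr n U V) : Prop where
  le : ∀ a x, F.u a ⬝ᵥ x ≤ F.N x
  eq : ∀ x, F.u (F.ft x) ⬝ᵥ x = F.N x
  smul : ∀ t : ℝ, 0 < t → ∀ x, F.ft (t • x) = F.ft x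
  meas : ∀ a, MeasurableSet {x | F.ft x = a}
  pos : ∀ x, x ≠ 0 → 0 < F.N x
  neg : ∀ x, F.N (-x) = F.N x
  hit : ∀ a, ∃ b, F.u a ⬝ᵥ F.v b = 1
  strict : ∀ a a', a ≠ a' → ∃ b, F.u a ⬝ᵥ F.v b = 1 ∧ F.u a' ⬝ᵥ F.v b < 1

/-- good frames -/
structure Good (F : Fr n U V) : Prop where
  n_pos : 0 < n
  half : Half F
  dhalf : Half F.dual
  le_one : ∀ a b, F.u a ⬝ᵥ F.v b ≤ 1
  vol : volume.real F.body * volume.real F.pol = 4 ^ n / n.factorial

/-- Cartesian product -/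
def Fr.prod (F : Fr n U V) (G : Fr m U' V') : Fr (n + m) (U ⊕ U') (V × V') where
  u := Sum.elim (fun a => Fin.append (F.u a) 0) (fun a' => Fin.append 0 (G.u a'))
  v := fun b => Fin.append (F.v b.1) (G.v b.2)
  N := fun x => max (F.N (p1 x)) (G.N (p2 x))
  h := fun y => F.h (p1 y) + G.h (p2 y)
  ft := fun x => if G.N (p2 x) ≤ F.N (p1 x) then Sum.inl (F.ft (p1 x)) else Sum.inr (G.ft (p2 x))
  vt := fun y => (F.vt (p1 y), G.vt (p2 y))

/-- free (`ℓ¹`) sum -/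
def Fr.sum (F : Fr n U V) (G : Fr m U' V') : Fr (n + m) (U × U') (V ⊕ V') where
  u := fun a => Fin.append (F.u a.1) (G.u a.2)
  v := Sum.elim (fun b => Fin.append (F.v b) 0) (fun b' => Fin.append 0 (G.v b'))
  N := fun x => F.N (p1 x) + G.N (p2 x)
  h := fun y => max (F.h (p1 y)) (G.h (p2 y))
  ft := fun x => (F.ft (p1 x), G.ft (p2 x))
  vt := fun y => if G.h (p2 y) ≤ F.h (p1 y) then Sum.inl (F.vt (p1 y)) else Sum.inr (G.vt (p2 y))

/-- the sign of a Boolean -/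
def sb (s : Bool) : ℝ := if s then 1 else -1

/-- the least index of a coordinate of largest absolute value -/
def imax {c : ℕ} (x : Fin (c + 1) → ℝ) : Fin (c + 1) :=
  (Finset.univ.filter fun i => ∀ j, |x j| ≤ |x i|).min'
    (by
      obtain ⟨i, -, hi⟩ := Finset.exists_max_image (Finset.univ : Finset (Fin (c + 1)))
        (fun i => |x i|) Finset.univ_nonempty
      exact ⟨i, by simpa using fun j => hi j (Finset.mem_univ j)⟩)

/-- the cube `[-1,1]^(c+1)` -/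
def cubeF (c : ℕ) : Fr (c + 1) (Fin (c + 1) × Bool) (Fin (c + 1) → Bool) where
  u := fun a j => if j = a.1 then sb a.2 else 0
  v := fun e j => sb (e j)
  N := fun x => ‖x‖
  h := fun y => ∑ i, |y i|
  ft := fun x => (imax x, decide (0 ≤ x (imax x)))
  vt := fun y i => decide (0 ≤ y i)

/-- a kernel: every `y` is written as a combination of the normals of the facets at `vt y` -/
structure Ker [Fintype U] (F : Fr n U V) (α : U → V → ℝ) (mu : (Fin n → ℝ) → U → ℝ) : Prop where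
  nonneg : ∀ y a, 0 ≤ mu y a
  meas : ∀ a, Measurable fun y => mu y a
  smul : ∀ t : ℝ, 0 < t → ∀ y a, mu (t • y) a = t * mu y a
  bary : ∀ y, ∑ a, mu y a • F.u a = y
  supp : ∀ y a, mu y a ≠ 0 → F.u a ⬝ᵥ F.v (F.vt y) = 1
  alpha : ∀ a b, 0 ≤ α a b
  law : ∀ a b, ∫⁻ y in {y | F.h y ≤ 1 ∧ F.vt y = b}, ENNReal.ofReal (mu y a) =
    ENNReal.ofReal ((n : ℝ) / (n + 1) * α a b) * volume F.pol

/-- a kernel from the body `{h ≤ 1}` to its vertices -/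
structure BK [Fintype U] [Fintype V] (F : Fr n U V) (α : U → V → ℝ)
    (lam : (Fin n → ℝ) → U → ℝ) : Prop where
  nonneg : ∀ b a, F.h b ≤ 1 → 0 ≤ lam b a
  meas : ∀ a, Measurable fun b => lam b a
  one : ∀ b, F.h b ≤ 1 → ∑ a, lam b a = 1
  bary : ∀ b, F.h b ≤ 1 → ∑ a, lam b a • F.u a = b
  law : ∀ a, ∫⁻ b in F.pol, ENNReal.ofReal (lam b a) =
    ENNReal.ofReal (∑ b, α a b) * volume F.pol

/-- the coupling of a product -/
def alP [Fintype U] [Fintype U'] (n m : ℕ) (α : U → V → ℝ) (α' : U' → V' → ℝ) :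
    U ⊕ U' → V × V' → ℝ
  | Sum.inl a, b => (n : ℝ) / (n + m) * α a b.1 * ∑ a', α' a' b.2
  | Sum.inr a', b => (m : ℝ) / (n + m) * α' a' b.2 * ∑ a, α a b.1

/-- the coupling of a sum -/
def alS [Fintype V] [Fintype V'] (n m : ℕ) (α : U → V → ℝ) (α' : U' → V' → ℝ) :
    U × U' → V ⊕ V' → ℝ
  | a, Sum.inl b => (n : ℝ) / (n + m) * α a.1 b * ∑ b', α' a.2 b'
  | a, Sum.inr b' => (m : ℝ) / (n + m) * α' a.2 b' * ∑ b, α a.1 b

/-- the coupling of the cube -/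
def alC (c : ℕ) (a : Fin (c + 1) × Bool) (e : Fin (c + 1) → Bool) : ℝ :=
  if e a.1 = a.2 then 1 / ((c + 1) * 2 ^ (c + 1)) else 0

/-- the kernel of a product -/
def muP (mu : (Fin n → ℝ) → U → ℝ) (mu' : (Fin m → ℝ) → U' → ℝ) (y : Fin (n + m) → ℝ) :
    U ⊕ U' → ℝ := Sum.elim (mu (p1 y)) (mu' (p2 y))

/-- the kernel of a sum -/
def muS (F : Fr n U V) (G : Fr m U' V') (mu : (Fin n → ℝ) → U → ℝ) (mu' : (Fin m → ℝ) → U' → ℝ)
    (lam : (Fin n → ℝ) → U → ℝ) (lam' : (Fin m → ℝ) → U' → ℝ) (y : Fin (n + m) → ℝ)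
    (a : U × U') : ℝ :=
  if G.h (p2 y) ≤ F.h (p1 y) then mu (p1 y) a.1 * lam' ((F.h (p1 y))⁻¹ • p2 y) a.2
  else mu' (p2 y) a.2 * lam ((G.h (p2 y))⁻¹ • p1 y) a.1

/-- the kernel of the cube -/
def muC (c : ℕ) (y : Fin (c + 1) → ℝ) (a : Fin (c + 1) × Bool) : ℝ :=
  if decide (0 ≤ y a.1) = a.2 then |y a.1| else 0

/-- the dual kernel of the cube -/
def nuC (c : ℕ) (x : Fin (c + 1) → ℝ) (e : Fin (c + 1) → Bool) : ℝ :=
  ‖x‖ * ∏ j, (1 + sb (e j) * (x j / ‖x‖)) / 2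

/-- the simple kernel from the body -/
def lam0 [Fintype V] (F : Fr n U V) (α : U → V → ℝ) (mu : (Fin n → ℝ) → U → ℝ)
    (b : Fin n → ℝ) (a : U) : ℝ := mu b a + (1 - F.h b) * ∑ b', α a b'

/-- the coefficients of the certificate of a product -/
def lamP (F : Fr n U V) (G : Fr m U' V') (mu : (Fin n → ℝ) → U → ℝ) (mu' : (Fin m → ℝ) → U' → ℝ)
    (lam : (Fin n → ℝ) → U → ℝ) (lam' : (Fin m → ℝ) → U' → ℝ) (b : Fin (n + m) → ℝ) :
    U ⊕ U' → ℝ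
  | Sum.inl a => (n : ℝ) / (n + m) * ((1 - G.h (p2 b)) * lam ((1 - G.h (p2 b))⁻¹ • p1 b) a) +
      (m : ℝ) / (n + m) * mu (p1 b) a
  | Sum.inr a' => (n : ℝ) / (n + m) * mu' (p2 b) a' +
      (m : ℝ) / (n + m) * ((1 - F.h (p1 b)) * lam' ((1 - F.h (p1 b))⁻¹ • p2 b) a')

/-- the coefficients of the certificate of a sum -/
def lamS (lam : (Fin n → ℝ) → U → ℝ) (lam' : (Fin m → ℝ) → U' → ℝ) (b : Fin (n + m) → ℝ)
    (a : U × U') : ℝ := lam (p1 b) a.1 * lam' (p2 b) a.2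

/-- certificates for the cones at the vertices -/
structure QC [Fintype U] (F : Fr n U V) (mu : (Fin n → ℝ) → U → ℝ) (LQ : (Fin n → ℝ) → ℝ)
    (Y : Set (Fin n → ℝ)) (qa : ℝ) : Prop where
  measY : MeasurableSet Y
  nullY : volume Yᶜ = 0
  smulY : ∀ t : ℝ, 0 < t → ∀ y ∈ Y, t • y ∈ Y
  meas : Measurable LQ
  smul : ∀ t : ℝ, 0 < t → ∀ y ∈ Y, LQ (t • y) = LQ y - n * Real.log t
  nonneg : ∀ y ∈ Y, F.h y ≤ 1 → 0 ≤ LQ y
  cert : ∀ y ∈ Y, ∀ ψ : U → ℝ,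
    ∫⁻ x in {x | ∀ a, F.u a ⬝ᵥ F.v (F.vt y) = 1 → F.u a ⬝ᵥ x ≤ ψ a},
      ENNReal.ofReal (Real.exp (x ⬝ᵥ y)) ≤ ENNReal.ofReal (Real.exp (∑ a, mu y a * ψ a + LQ y))
  qa_nonneg : 0 ≤ qa
  mean : ∫⁻ y in F.pol, ENNReal.ofReal (LQ y) ≤ ENNReal.ofReal qa * volume F.pol

/-- certificates for perturbations of the norm -/
structure ZC [Fintype U] (F : Fr n U V) (lam : (Fin n → ℝ) → U → ℝ) (LZ : (Fin n → ℝ) → ℝ)
    (Z : Set (Fin n → ℝ)) (g : ℝ) : Prop where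
  measZ : MeasurableSet Z
  nullZ : volume (F.pol \ Z) = 0
  subZ : ∀ b ∈ Z, F.h b < 1
  meas : Measurable LZ
  nonneg : ∀ b ∈ Z, 0 ≤ LZ b
  cert : ∀ b ∈ Z, ∀ τ : U → ℝ,
    ∫⁻ z, ENNReal.ofReal (Real.exp (z ⬝ᵥ b - ⨆ a, (F.u a ⬝ᵥ z - τ a))) ≤
      ENNReal.ofReal (Real.exp (∑ a, lam b a * τ a + LZ b))
  g_nonneg : 0 ≤ g
  mean : ∫⁻ b in F.pol, ENNReal.ofReal (LZ b) ≤ ENNReal.ofReal g * volume F.pol

/-- the function of the product certificate for the cones -/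
def LQP (LQ : (Fin n → ℝ) → ℝ) (LQ' : (Fin m → ℝ) → ℝ) (y : Fin (n + m) → ℝ) : ℝ :=
  LQ (p1 y) + LQ' (p2 y)

/-- the function of the sum certificate for the cones -/
def LQS (F : Fr n U V) (G : Fr m U' V') (LQ : (Fin n → ℝ) → ℝ) (LQ' : (Fin m → ℝ) → ℝ)
    (LZ : (Fin n → ℝ) → ℝ) (LZ' : (Fin m → ℝ) → ℝ) (y : Fin (n + m) → ℝ) : ℝ :=
  if G.h (p2 y) ≤ F.h (p1 y) then
    LQ (p1 y) - m * Real.log (F.h (p1 y)) + LZ' ((F.h (p1 y))⁻¹ • p2 y)
  else LQ' (p2 y) - n * Real.log (G.h (p2 y)) + LZ ((G.h (p2 y))⁻¹ • p1 y)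

/-- the function of the base certificate of a product -/
def LZA (G : Fr m U' V') (LQ' : (Fin m → ℝ) → ℝ) (LZ : (Fin n → ℝ) → ℝ)
    (b : Fin (n + m) → ℝ) : ℝ :=
  LQ' (p2 b) - (n + 1) * Real.log (1 - G.h (p2 b)) + LZ ((1 - G.h (p2 b))⁻¹ • p1 b)

/-- the function of the other base certificate of a product -/
def LZB (F : Fr n U V) (LQ : (Fin n → ℝ) → ℝ) (LZ' : (Fin m → ℝ) → ℝ)
    (b : Fin (n + m) → ℝ) : ℝ :=
  LQ (p1 b) - (m + 1) * Real.log (1 - F.h (p1 b)) + LZ' ((1 - F.h (p1 b))⁻¹ • p2 b)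

/-- the function of the product certificate -/
def LZP (F : Fr n U V) (G : Fr m U' V') (LQ : (Fin n → ℝ) → ℝ) (LQ' : (Fin m → ℝ) → ℝ)
    (LZ : (Fin n → ℝ) → ℝ) (LZ' : (Fin m → ℝ) → ℝ) (b : Fin (n + m) → ℝ) : ℝ :=
  (n : ℝ) / (n + m) * LZA G LQ' LZ b + (m : ℝ) / (n + m) * LZB F LQ LZ' b

/-- the function of the sum certificate -/
def LZS (LZ : (Fin n → ℝ) → ℝ) (LZ' : (Fin m → ℝ) → ℝ) (b : Fin (n + m) → ℝ) : ℝ :=
  LZ (p1 b) + LZ' (p2 b)

/-- the harmonic numbers -/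
def HH (n : ℕ) : ℝ := ∑ i ∈ Finset.range n, 1 / ((i : ℝ) + 1)

/-- `n H_n - log n!` -/
def ww (n : ℕ) : ℝ := n * HH n - Real.log n.factorial

/-- the constant of the cube -/
def dC (c : ℕ) : ℝ :=
  if c ≤ 1 then 1 - Real.log 2
  else c * (1 + Real.eulerMascheroniConstant) - ww c -
    2 * (Real.log 2 + Real.eulerMascheroniConstant - 1)

/-- everything together -/
structure Cert [Fintype U] [Fintype V] (F : Fr n U V) (α : U → V → ℝ) (mu : (Fin n → ℝ) → U → ℝ)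
    (nu : (Fin n → ℝ) → V → ℝ) (LQ : (Fin n → ℝ) → ℝ) (Y : Set (Fin n → ℝ)) (qa : ℝ)
    (lam : (Fin n → ℝ) → U → ℝ) (LZ : (Fin n → ℝ) → ℝ) (Z : Set (Fin n → ℝ)) (g : ℝ) : Prop where
  good : Good F
  ker : Ker F α mu
  dker : Ker F.dual (fun b a => α a b) nu
  qc : QC F mu LQ Y qa
  bk : BK F α lam
  zc : ZC F lam LZ Z g

/-- `K` has certificates with excess `Δ` and defect `d` -/
def Rep (n : ℕ) (K : Set (Fin n → ℝ)) (Δ d : ℝ) : Prop :=
  ∃ (U V : Type) (_ : Fintype U) (_ : Fintype V) (F : Fr n U V) (α : U → V → ℝ)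
    (mu : (Fin n → ℝ) → U → ℝ) (nu : (Fin n → ℝ) → V → ℝ) (LQ : (Fin n → ℝ) → ℝ)
    (Y : Set (Fin n → ℝ)) (qa : ℝ) (lam : (Fin n → ℝ) → U → ℝ) (LZ : (Fin n → ℝ) → ℝ)
    (Z : Set (Fin n → ℝ)) (g : ℝ),
    Cert F α mu nu LQ Y qa lam LZ Z g ∧ F.body = K ∧
      Δ = Real.log (volume.real K) + n * HH n - n * Real.log 2 - qa ∧ d = g - qa

end Pool.Agent.TH931.LP

namespace Pool.Agent.TH931.LP

/-! ### the cube: the pair of the two smallest coordinates as base -/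

/-- `1 - ∑_{l ≠ i, j} |b_l|` -/
def sP {c : ℕ} (i j : Fin (c + 1)) (b : Fin (c + 1) → ℝ) : ℝ :=
  1 - ∑ l ∈ (Finset.univ.erase i).erase j, |b l|

/-- coefficients with the pair `i, j` as base -/
def lamPair {c : ℕ} (i j : Fin (c + 1)) (b : Fin (c + 1) → ℝ) (a : Fin (c + 1) × Bool) : ℝ :=
  if a.1 = i then
    sP i j b * ((1 + sb a.2 * ((b i + b j) / sP i j b)) * (1 + sb a.2 * ((b i - b j) / sP i j b)) / 4)
  else if a.1 = j then
    sP i j b * ((1 + sb a.2 * ((b i + b j) / sP i j b)) * (1 - sb a.2 * ((b i - b j) / sP i j b)) / 4)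
  else muC c b a

/-- the function of the certificate with the pair `i, j` as base -/
def LZPair {c : ℕ} (i j : Fin (c + 1)) (b : Fin (c + 1) → ℝ) : ℝ :=
  -(∑ l ∈ (Finset.univ.erase i).erase j, Real.log |b l|) - 3 * Real.log (sP i j b) +
    Real.log 8 - Real.log (1 - ((b i + b j) / sP i j b) ^ 2) -
    Real.log (1 - ((b i - b j) / sP i j b) ^ 2)

/-- `i`, `j` are the two smallest coordinates, without ties -/
def selP {c : ℕ} (i j : Fin (c + 1)) (b : Fin (c + 1) → ℝ) : Prop :=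
  |b i| < |b j| ∧ ∀ l, l ≠ i → l ≠ j → |b j| < |b l|

/-- the tie free points -/
def Zc (c : ℕ) : Set (Fin (c + 1) → ℝ) :=
  {b | ∑ i, |b i| < 1 ∧ (∀ i, b i ≠ 0) ∧ ∃ i j, selP i j b}

open Classical in
/-- the coefficients of the certificate of the cube -/
def lamC (c : ℕ) (b : Fin (c + 1) → ℝ) (a : Fin (c + 1) × Bool) : ℝ :=
  if b ∈ Zc c then ∑ i, ∑ j, (if selP i j b then lamPair i j b a else 0)
  else lam0 (cubeF c) (alC c) (muC c) b a

open Classical in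
/-- the function of the certificate of the cube -/
def LZC (c : ℕ) (b : Fin (c + 1) → ℝ) : ℝ :=
  ∑ i, ∑ j, (if selP i j b then LZPair i j b else 0)

/-- the gain over the simple certificate, in terms of the two smallest coordinates `x`, `y` and of
`s = 1 - ∑ |b_l|` -/
def gain (x y s : ℝ) : ℝ :=
  Real.log (1 + s / (2 * x)) + Real.log (1 + s / (2 * y)) -
    Real.log (1 + s / (s + 2 * x + 2 * y))

/-- `∫ log (1 + s / x) κ e^{-κ x - s}` -/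
def LL (κ : ℝ) : ℝ := if κ = 1 then 1 else κ * Real.log κ / (κ - 1)

end Pool.Agent.TH931.LP
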