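import Pool.Agent.TH931.LP.Stm
import Pool.Agent.W686.LP.Defs

/-!
# Statements of the tasks (helper931), third part: bodies near a Hanner polytope
-/

set_option autoImplicit false

open MeasureTheory Set
open scoped ENNReal Matrix Pointwise

noncomputable section

namespace Pool.Agent.TH931.LP

open Pool.Agent.W678.LM (FK Mp Cb)
open Pool.Agent.W686.LP (SB)

variable {n : ℕ} {U V : Type}

open Classical in
/-- the mean of the vertices of a facet -/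
def ctr [Fintype V] (F : Fr n U V) (a : U) : Fin n → ℝ :=
  (((Finset.univ.filter fun b => F.u a ⬝ᵥ F.v b = 1).card : ℝ))⁻¹ •
    ∑ b ∈ Finset.univ.filter (fun b => F.u a ⬝ᵥ F.v b = 1), F.v b

/-- the gauge of `K` at the point of the facet `a` close to the vertex `b` -/
def GG [Fintype V] (F : Fr n U V) (K : Set (Fin n → ℝ)) (κ : ℝ) (a : U) (b : V) : ℝ :=
  gauge K ((1 - κ) • F.v b + κ • ctr F a)

/-- B1: volume -/
def S_b1 : Prop := ∀ (n : ℕ) (U V : Type) [Fintype U] [Fintype V] (F : Fr n U V) (α : U → V → ℝ)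
  (nu : (Fin n → ℝ) → V → ℝ), Good F → Ker F.dual (fun b a => α a b) nu →
  ∀ κ : ℝ, 0 < κ → κ < 1 → ∀ K : Set (Fin n → ℝ), SB K → F.body ⊆ K →
    volume.real F.body * (1 + n * (1 - κ) ^ (n - 1) * ∑ a, ∑ b, α a b * (1 - GG F K κ a b)) ≤
      volume.real K

/-- B2: heights near a vertex -/
def S_b2 : Prop := ∀ (n : ℕ) (U V : Type) [Fintype U] [Fintype V] (F : Fr n U V), Good F →
  ∃ ρ M : ℝ, 0 < ρ ∧ 0 < M ∧ ∀ κ r δ : ℝ, 0 < κ → κ < 1 → 0 ≤ r → 0 ≤ δ → r + M * δ ≤ ρ * κ →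
    ∀ K : Set (Fin n → ℝ), SB K → F.body ⊆ K → (∀ x ∈ K, F.N x ≤ 1 + δ) →
    ∀ a b, F.u a ⬝ᵥ F.v b = 1 → GG F K κ a b ≤ 1 ∧ 1 - GG F K κ a b ≤ δ ∧
      ∀ x ∈ K, ‖x - F.v b‖ ≤ r → F.u a ⬝ᵥ x ≤ 1 + (1 + δ) * (1 - GG F K κ a b) / (1 - κ)

/-- B3: upper bounds of the Laplace transform -/
def S_b3 : Prop := ∀ (n : ℕ) (U V : Type) [Fintype U] [Fintype V] (F : Fr n U V) (α : U → V → ℝ)
  (mu : (Fin n → ℝ) → U → ℝ) (LQ : (Fin n → ℝ) → ℝ) (Y : Set (Fin n → ℝ)) (qa : ℝ),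
  Good F → Ker F α mu → QC F mu LQ Y qa →
  (∀ p C : ℝ, 0 < p → 0 ≤ C → ∀ K : Set (Fin n → ℝ), IsCompact K → (∀ x ∈ K, F.N x ≤ 1 + C / p) →
    ∀ y ∈ Y, FK p K y ≤ Real.exp (p * F.h y + C * F.h y + LQ y) / p ^ n) ∧
  (∀ p r σ : ℝ, 0 < p → ∀ K : Set (Fin n → ℝ), IsCompact K → ∀ y ∈ Y, ∀ ψ : U → ℝ,
    (∀ x ∈ K, ‖x - F.v (F.vt y)‖ ≤ r → ∀ a, F.u a ⬝ᵥ F.v (F.vt y) = 1 →
      F.u a ⬝ᵥ x ≤ 1 + ψ a / p) →
    (∀ x ∈ K, r < ‖x - F.v (F.vt y)‖ → x ⬝ᵥ y ≤ F.h y - σ) →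
      FK p K y ≤ Real.exp (p * F.h y + ∑ a, mu y a * ψ a + LQ y) / p ^ n +
        volume.real K * Real.exp (p * (F.h y - σ)))

/-- B4: means with respect to `exp (-h)` -/
def S_b4 : Prop := ∀ (n : ℕ) (U V : Type) [Fintype U] [Fintype V] (F : Fr n U V) (α : U → V → ℝ)
  (mu : (Fin n → ℝ) → U → ℝ) (LQ : (Fin n → ℝ) → ℝ) (Y : Set (Fin n → ℝ)) (qa : ℝ),
  Good F → Ker F α mu → QC F mu LQ Y qa →
  Integrable (fun y => Real.exp (-F.h y)) ∧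
  ∫ y, Real.exp (-F.h y) = n.factorial * volume.real F.pol ∧
  Integrable (fun y => F.h y * Real.exp (-F.h y)) ∧
  (∀ a b, Integrable (fun y => {y | F.vt y = b}.indicator (fun y => mu y a) y *
      Real.exp (-F.h y)) ∧
    ∫ y, {y | F.vt y = b}.indicator (fun y => mu y a) y * Real.exp (-F.h y) =
      n * α a b * (n.factorial * volume.real F.pol)) ∧
  Integrable (fun y => LQ y * Real.exp (-F.h y)) ∧
  ∫ y, LQ y * Real.exp (-F.h y) ≤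
    (qa - 1 - n * (HH (n - 1) - Real.eulerMascheroniConstant)) *
      (n.factorial * volume.real F.pol)

/-- the good directions: bounded and away from the boundaries of the normal cones -/
def Gd (F : Fr n U V) (r σ : ℝ) : Set (Fin n → ℝ) :=
  {y | F.h y ≤ 1 / σ ∧ ∀ x ∈ F.body, r ≤ ‖x - F.v (F.vt y)‖ → x ⬝ᵥ y ≤ F.h y - σ}

/-- B5: most directions are good -/
def S_b5 : Prop := ∀ (n : ℕ) (U V : Type) [Fintype U] [Fintype V] (F : Fr n U V) (α : U → V → ℝ)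
  (nu : (Fin n → ℝ) → V → ℝ), Good F → Ker F.dual (fun b a => α a b) nu →
  ∀ r η : ℝ, 0 < r → 0 < η → ∃ σ : ℝ, 0 < σ ∧ ∃ S : Set (Fin n → ℝ), MeasurableSet S ∧
    S ⊆ Gd F r σ ∧ ∫ y in Sᶜ, (1 + F.h y) * Real.exp (-F.h y) ≤ η

/-- B6: lower bound of `M_p` near the body -/
def S_b6 : Prop := ∀ (n : ℕ) (U V : Type) [Fintype U] [Fintype V] (F : Fr n U V) (α : U → V → ℝ)
  (mu : (Fin n → ℝ) → U → ℝ) (nu : (Fin n → ℝ) → V → ℝ) (LQ : (Fin n → ℝ) → ℝ)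
  (Y : Set (Fin n → ℝ)) (qa : ℝ),
  Good F → Ker F α mu → Ker F.dual (fun b a => α a b) nu → QC F mu LQ Y qa →
  ∀ C η : ℝ, 0 < C → 0 < η → ∃ p1 : ℝ, 1 < p1 ∧ ∀ p : ℝ, p1 ≤ p → ∀ K : Set (Fin n → ℝ), SB K →
    F.body ⊆ K → K ⊆ (1 + C / p) • F.body →
    ENNReal.ofReal (4 ^ n * Real.exp ((n * Real.log p + Real.log (volume.real F.body) -
      (qa - 1 - n * (HH (n - 1) - Real.eulerMascheroniConstant)) - η) / p)) ≤ Mp p K

/-- B7: the cube -/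
def S_b7 : Prop := ∀ (n : ℕ) (η : ℝ), 0 < η → ∃ p1 : ℝ, 1 < p1 ∧ ∀ p : ℝ, p1 ≤ p →
  Mp p (Cb n) ≤ ENNReal.ofReal (4 ^ n * Real.exp ((n * Real.log p +
    n * (Real.log 2 - Real.eulerMascheroniConstant) + η) / p))

/-- near a body with certificates and positive excess -/
def S_near : Prop := ∀ (n : ℕ) (H : Set (Fin n → ℝ)) (Δ d : ℝ), Rep n H Δ d → 0 < Δ →
  ∀ C : ℝ, 0 < C → ∃ p1 : ℝ, 1 < p1 ∧ ∀ p : ℝ, p1 ≤ p → ∀ K : Set (Fin n → ℝ), SB K →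
    H ⊆ K → K ⊆ (1 + C / p) • H → Mp p (Cb n) < Mp p K

end Pool.Agent.TH931.LP
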