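import Pool.Agent.TH931.LP.StmB
import Pool.Agent.TH931.LP.StmC
import Pool.Agent.TH580.HL.Lin4

/-!
# Statements of the tasks (helper931), fourth part: the recursion of the constants, assembly
-/

set_option autoImplicit false

open MeasureTheory Set
open scoped ENNReal Matrix Pointwise

noncomputable section

namespace Pool.Agent.TH931.LP

open Pool.Agent.W678.LM (FK Mp Cb)
open Pool.Agent.W686.LP (SB)

/-- trees of Hanner polytopes; `cube c` is the cube of dimension `c + 1` -/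
inductive NT : Type
  | cube (c : ℕ) : NT
  | prod (a b : NT) : NT
  | sum (a b : NT) : NT

namespace NT

/-- dimension -/
def dim : NT → ℕ
  | cube c => c + 1
  | prod a b => dim a + dim b
  | sum a b => dim a + dim b

/-- the polytope of a tree -/
def std : (t : NT) → Set (Fin t.dim → ℝ)
  | cube c => (Icc (-1) 1 : Set (Fin (c + 1) → ℝ))
  | prod a b => {x : Fin (a.dim + b.dim) → ℝ | p1 x ∈ std a ∧ p2 x ∈ std b}
  | sum a b => convexHull ℝ ({x : Fin (a.dim + b.dim) → ℝ | p1 x ∈ std a ∧ p2 x = 0} ∪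
      {x : Fin (a.dim + b.dim) → ℝ | p1 x = 0 ∧ p2 x ∈ std b})

/-- the defect `d` -/
def dd : NT → ℝ
  | cube c => dC (c + 1)
  | prod a b => (a.dim : ℝ) / (a.dim + b.dim) * dd a + (b.dim : ℝ) / (a.dim + b.dim) * dd b +
      HH (a.dim + b.dim) - (a.dim : ℝ) / (a.dim + b.dim) * HH a.dim -
      (b.dim : ℝ) / (a.dim + b.dim) * HH b.dim
  | sum a b => (a.dim : ℝ) / (a.dim + b.dim) * dd a + (b.dim : ℝ) / (a.dim + b.dim) * dd b

/-- the excess `Δ` -/
def Dl : NT → ℝ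
  | cube _ => 0
  | prod a b => Dl a + Dl b
  | sum a b => Dl a + Dl b + ww (a.dim + b.dim) - ww a.dim - ww b.dim -
      (a.dim : ℝ) / (a.dim + b.dim) * dd b - (b.dim : ℝ) / (a.dim + b.dim) * dd a

/-- some factor is a cube -/
def hasC : NT → Prop
  | cube _ => True
  | prod a b => hasC a ∨ hasC b
  | sum _ _ => False

/-- normal forms: at most one factor of a product is a cube, and no sum of two segments -/
def NF : NT → Prop
  | cube _ => True
  | prod a b => NF a ∧ NF b ∧ ¬ (hasC a ∧ hasC b)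
  | sum a b => NF a ∧ NF b ∧ ¬ (a = cube 0 ∧ b = cube 0)

end NT

/-- D1: the closure -/
def S_close : Prop := ∀ t : NT, t.NF → (∀ c, t ≠ NT.cube c) → 0 < t.Dl

/-- E1: every Hanner polytope has a normal form -/
def S_nf : Prop := ∀ (n : ℕ) (K : Set (Fin n → ℝ)), Pool.Agent.TH580.HL.Hanner n K →
  ∃ t : NT, t.NF ∧ ∃ e : (Fin t.dim → ℝ) ≃ₗ[ℝ] (Fin n → ℝ), e '' t.std = K

/-- E2 -/
def S_rep : Prop := ∀ t : NT, Rep t.dim t.std t.Dl t.dd

/-- E3 -/
def S_fin : Prop := ∀ n : ℕ, {t : NT | t.dim = n}.Finite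

/-- the main theorem -/
def S_final : Prop := ∀ n : ℕ, 1 ≤ n → ∃ p₀ : ℝ, 1 < p₀ ∧ ∀ p : ℝ, p₀ ≤ p →
  ∀ K : Set (Fin n → ℝ), SB K →
    Mp p (Cb n) ≤ Mp p K ∧ ((∀ T : (Fin n → ℝ) ≃ₗ[ℝ] (Fin n → ℝ), T '' K ≠ Cb n) →
      Mp p (Cb n) < Mp p K)

end Pool.Agent.TH931.LP
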